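import Mathlib
import Pool.Agent.Results.MP_b296c2_gt.Riemannian
import Pool.Agent.L5helper93.PI.Main

/-!
# Harmonic two-forms under scalar-normalised pinching from below

Let `M` be a closed connected Riemannian manifold of dimension `n ≥ 3` all of whose sectional
curvatures are at least `scal / (n (n + 2))`, and larger than this at one point (for instance at
all points, which is the pinching condition of the problem). Then every closed and coclosed
two-form on `M` vanishes. The constant is optimal for every even `n` (complex projective space).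
-/

open Bundle Manifold ContDiff VectorField

set_option linter.unusedSectionVars false

noncomputable section

namespace Pool.Agent.Results.MP_d8ed74_gt.HarmonicTwoForms

open Pool.Agent.Results.MP_b296c2_gt.Riemannian

variable {E : Type*} [NormedAddCommGroup E] [NormedSpace ℝ E] [FiniteDimensional ℝ E]
  {H : Type*} [TopologicalSpace H] {I : ModelWithCorners ℝ E H}
  {M : Type*} [TopologicalSpace M] [ChartedSpace H M] [IsManifold I ∞ M]
  [RiemannianBundle (fun x : M => TangentSpace I x)]
  [IsContMDiffRiemannianBundle I ∞ E (fun x : M => TangentSpace I x)]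

/-- The scalar curvature at a point, computed in an orthonormal basis of the tangent space:
`∑ i j, ⟨R (b i, b j) b j, b i⟩`. -/
def scal (R : CurvField I M) {n : ℕ} {x : M}
    (b : OrthonormalBasis (Fin n) ℝ (TangentSpace I x)) : ℝ :=
  ∑ i, ∑ j, inner ℝ (R x (b i) (b j) (b j)) (b i)

/-- At every point every sectional curvature is at least `scal / (n (n + 2))`. -/
def WeaklyPinched (n : ℕ) (R : CurvField I M) : Prop :=
  ∀ (x : M) (b : OrthonormalBasis (Fin n) ℝ (TangentSpace I x)) (u v : TangentSpace I x),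
    inner ℝ u u = (1 : ℝ) → inner ℝ v v = (1 : ℝ) → inner ℝ u v = (0 : ℝ) →
    scal R b / ((n : ℝ) * ((n : ℝ) + 2)) ≤ inner ℝ (R x u v v) u

/-- At the point `p` every sectional curvature is larger than `scal / (n (n + 2))`. -/
def PinchedAt (n : ℕ) (R : CurvField I M) (p : M) : Prop :=
  ∀ (b : OrthonormalBasis (Fin n) ℝ (TangentSpace I p)) (u v : TangentSpace I p),
    inner ℝ u u = (1 : ℝ) → inner ℝ v v = (1 : ℝ) → inner ℝ u v = (0 : ℝ) →
    scal R b / ((n : ℝ) * ((n : ℝ) + 2)) < inner ℝ (R p u v v) u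

/-- A field of bilinear forms on the tangent spaces. -/
abbrev BilinearField (I : ModelWithCorners ℝ E H) (M : Type*) [TopologicalSpace M]
    [ChartedSpace H M] : Type _ := Π x : M, TangentSpace I x →ₗ[ℝ] TangentSpace I x →ₗ[ℝ] ℝ

/-- The function `θ (X, Y)`. -/
def onFields (θ : BilinearField I M) (X Y : Π x : M, TangentSpace I x) : M → ℝ :=
  fun x => θ x (X x) (Y x)

/-- A smooth two-form: alternating, and `θ (X, Y)` is smooth for smooth vector fields. -/
def IsTwoForm (θ : BilinearField I M) : Prop :=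
  (∀ x u, θ x u u = 0) ∧ ∀ ⦃X Y : Π x : M, TangentSpace I x⦄, CMDiff ∞ (T% X) →
    CMDiff ∞ (T% Y) → CMDiff ∞ (onFields θ X Y)

/-- The form is closed: `X θ(Y,Z) + Y θ(Z,X) + Z θ(X,Y) = θ([X,Y],Z) + θ([Y,Z],X) + θ([Z,X],Y)`. -/
def IsClosedForm (θ : BilinearField I M) : Prop :=
  ∀ ⦃X Y Z : Π x : M, TangentSpace I x⦄, CMDiff ∞ (T% X) → CMDiff ∞ (T% Y) →
    CMDiff ∞ (T% Z) → ∀ x,
    d% (onFields θ Y Z) x (X x) + d% (onFields θ Z X) x (Y x) + d% (onFields θ X Y) x (Z x) =
      onFields θ (mlieBracket I X Y) Z x + onFields θ (mlieBracket I Y Z) X x +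
        onFields θ (mlieBracket I Z X) Y x

/-- The covariant derivative `(∇_V θ) (X, Y) = V θ(X,Y) - θ(∇_V X, Y) - θ(X, ∇_V Y)`. -/
def covDer (cov : CovariantDerivative I E (TangentSpace I : M → Type _)) (θ : BilinearField I M)
    (V X Y : Π x : M, TangentSpace I x) : M → ℝ :=
  fun x => d% (onFields θ X Y) x (V x) - θ x (cov X x (V x)) (Y x) - θ x (X x) (cov Y x (V x))

/-- The form is coclosed: `∑ i, (∇_{e i} θ) (e i, Y) = 0` at every point at which the smooth vector
fields `e 1, ..., e n` are orthonormal. -/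
def IsCoclosed (n : ℕ) (cov : CovariantDerivative I E (TangentSpace I : M → Type _))
    (θ : BilinearField I M) : Prop :=
  ∀ (x : M) (e : Fin n → Π x : M, TangentSpace I x), (∀ i, CMDiff ∞ (T% (e i))) →
    (∀ i j, inner ℝ (e i x) (e j x) = if i = j then (1 : ℝ) else 0) →
    ∀ Y : Π x : M, TangentSpace I x, CMDiff ∞ (T% Y) → ∑ i, covDer cov θ (e i) (e i) Y x = 0

/-- On a closed connected Riemannian manifold with `sec ≥ scal / (n (n + 2))`, with strict
inequality at one point, every harmonic two-form vanishes. -/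
theorem result {E : Type*} [NormedAddCommGroup E] [NormedSpace ℝ E] [FiniteDimensional ℝ E]
    {H : Type*} [TopologicalSpace H] {I : ModelWithCorners ℝ E H}
    {M : Type*} [TopologicalSpace M] [ChartedSpace H M] [IsManifold I ∞ M]
    [T2Space M] [CompactSpace M] [ConnectedSpace M] [BoundarylessManifold I M]
    [RiemannianBundle (fun x : M => TangentSpace I x)]
    [IsContMDiffRiemannianBundle I ∞ E (fun x : M => TangentSpace I x)]
    (n : ℕ) (hdim : Module.finrank ℝ E = n) (hn : 3 ≤ n)
    (cov : CovariantDerivative I E (TangentSpace I : M → Type _)) (hcov : IsLeviCivita cov)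
    (R : CurvField I M) (hR : IsRiemannTensor cov R)
    (hsec : WeaklyPinched n R) (p : M) (hp : PinchedAt n R p)
    (θ : BilinearField I M) (hθ : IsTwoForm θ) (hclosed : IsClosedForm θ)
    (hcoclosed : IsCoclosed n cov θ) (x : M) (u v : TangentSpace I x) : θ x u v = 0 := by
  have : Nontrivial E := Module.nontrivial_of_finrank_pos (R := ℝ) (by omega)
  have hθ' : Pool.Agent.L5helper93.Geo.IsForm θ := ⟨hθ.1, fun X Y hX hY => hθ.2 hX hY⟩
  have hc : ∀ ⦃V X Y : Π x : M, TangentSpace I x⦄, CMDiff ∞ (T% V) → CMDiff ∞ (T% X) →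
      CMDiff ∞ (T% Y) → ∀ x, Pool.Agent.L5helper93.Geo.DO cov θ V X Y x +
        Pool.Agent.L5helper93.Geo.DO cov θ X Y V x +
        Pool.Agent.L5helper93.Geo.DO cov θ Y V X x = 0 := by
    intro V X Y hV hX hY x
    have h1 := hclosed hV hX hY x
    have t1 := hcov.torsionFree hV hX x
    have t2 := hcov.torsionFree hX hY x
    have t3 := hcov.torsionFree hY hV x
    unfold onFields at h1
    rw [← t1, ← t2, ← t3] at h1
    unfold Pool.Agent.L5helper93.Geo.DO Pool.Agent.L5helper93.Geo.OF
    simp only [map_sub, LinearMap.sub_apply] at h1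
    have s1 := hθ'.skew x (X x) (cov Y x (V x))
    have s2 := hθ'.skew x (Y x) (cov V x (X x))
    have s3 := hθ'.skew x (V x) (cov X x (Y x))
    linarith
  exact Pool.Agent.L5helper93.PI.pinch_main hdim hn hcov hR
    (fun x b u v h1 h2 h3 => hsec x b u v h1 h2 h3) p
    (fun b u v h1 h2 h3 => hp b u v h1 h2 h3) hθ' hc
    (fun x e he ho Y hY => hcoclosed x e he ho Y hY) x u v

end Pool.Agent.Results.MP_d8ed74_gt.HarmonicTwoForms
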